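import Mathlib

/-!
MP_bebd57_nt, Q1: bases in which not every positive integer is elated.
-/

namespace Pool.Agent.Results.MP_bebd57_nt.EvenNonsquareBases

/-- The `b`-elated function: the leading digit times the sum of the squares of all digits
(`Nat.digits b a` lists the base-`b` digits of `a`, its last entry is the leading digit). -/
def elatedFun (b a : ℕ) : ℕ :=
  (Nat.digits b a).getLastD 0 * ((Nat.digits b a).map (fun d => d ^ 2)).sum

/-- `a` is `b`-elated: some iterate of the `b`-elated function at `a` is `1`. -/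
def IsElated (b a : ℕ) : Prop := ∃ k : ℕ, (elatedFun b)^[k] a = 1

lemma sum_sq_mod_two (l : List ℕ) : (l.map (fun d => d ^ 2)).sum % 2 = l.sum % 2 := by
  induction l with
  | nil => rfl
  | cons x l ih =>
    simp only [List.map_cons, List.sum_cons]
    have hx : x ^ 2 % 2 = x % 2 := by
      rcases Nat.mod_two_eq_zero_or_one x with h | h <;> simp [Nat.pow_mod, h]
    omega

lemma even_elatedFun {b : ℕ} (hb : b % 2 = 1) {a : ℕ} (ha : a % 2 = 0) :
    elatedFun b a % 2 = 0 := by
  have h1 : a % 2 = (Nat.digits b a).sum % 2 := Nat.modEq_digits_sum 2 b hb a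
  have h2 := sum_sq_mod_two (Nat.digits b a)
  unfold elatedFun
  rw [Nat.mul_mod, h2, ← h1, ha]
  simp

lemma even_iterate {b : ℕ} (hb : b % 2 = 1) {a : ℕ} (ha : a % 2 = 0) (k : ℕ) :
    (elatedFun b)^[k] a % 2 = 0 := by
  induction k generalizing a with
  | zero => exact ha
  | succ k ih =>
    rw [Function.iterate_succ_apply]
    exact ih (even_elatedFun hb ha)

lemma elatedFun_one {b : ℕ} (hb : 1 < b) : elatedFun b 1 = 1 := by
  unfold elatedFun
  rw [Nat.digits_of_lt b 1 one_ne_zero hb]
  rfl

lemma iterate_one {b : ℕ} (hb : 1 < b) (k : ℕ) : (elatedFun b)^[k] 1 = 1 :=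
  Function.iterate_fixed (elatedFun_one hb) k

lemma not_elated_of_periodic {b a L : ℕ} (hb : 1 < b) (hL : 0 < L)
    (h : (elatedFun b)^[L] a = a) (ha : a ≠ 1) : ¬ IsElated b a := by
  rintro ⟨k, hk⟩
  have hmul : ∀ m : ℕ, (elatedFun b)^[L * m] a = a := by
    intro m
    rw [Function.iterate_mul]
    exact Function.iterate_fixed h m
  have hle : k ≤ L * k := Nat.le_mul_of_pos_left k hL
  obtain ⟨j, hj⟩ := Nat.exists_eq_add_of_le hle
  have h1 := hmul k
  rw [hj, Nat.add_comm, Function.iterate_add_apply, hk, iterate_one hb] at h1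
  exact ha h1.symm

lemma two_digit_fixed {b x t : ℕ} (hb : b + t = x ^ 2 * (1 + t ^ 2)) (hx : x < b)
    (hxt : x * t < b) (hx0 : 0 < x) : elatedFun b (x * b + x * t) = x * b + x * t := by
  have hb1 : 1 < b := by omega
  have hd : Nat.digits b (x * b + x * t) = [x * t, x] := by
    have e : x * b + x * t = x * t + b * x := by ring
    rw [e, Nat.digits_add b hb1 (x * t) x hxt (Or.inr (by omega)),
      Nat.digits_of_lt b x (by omega) hx]
  unfold elatedFun
  rw [hd]
  simp only [List.getLastD_cons, List.map_cons, List.map_nil, List.sum_cons, List.sum_nil]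
  have : x * ((x * t) ^ 2 + (x ^ 2 + 0)) = x * (x ^ 2 * (1 + t ^ 2)) := by ring
  simp only [List.getLastD_nil]
  rw [this, ← hb]
  ring

/-- Triples `(b, a, L)`: `a` lies on a cycle of length dividing `L` in base `b`. -/
def table : List (ℕ × ℕ × ℕ) :=
  [(4, 8, 1), (6, 30, 3), (8, 350, 1), (10, 298, 1), (12, 80, 2), (14, 753, 1), (16, 1375, 1), 
   (18, 40, 1), (20, 17, 13), (22, 6108, 1), (24, 471, 3), (26, 9744, 1), (28, 3664, 1), 
   (30, 2458, 1), (32, 19152, 1), (34, 75, 2), (36, 216, 1), (38, 26442, 1), (40, 58320, 1), 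
   (42, 19822, 1), (44, 16712, 1), (46, 16093, 1), (48, 58, 2), (50, 13895, 1), (52, 8098, 1), 
   (54, 1360, 4), (56, 16910, 1), (58, 8872, 1), (60, 13905, 1), (62, 14742, 1), (64, 16233, 1), 
   (66, 126015, 2), (68, 20804, 1), (70, 32400, 1), (72, 50382, 1), (74, 24564, 1), (76, 17232, 1), 
   (78, 133770, 1), (80, 62694, 1), (82, 19338, 1), (84, 76674, 2), (86, 175582, 1), 
   (88, 132702, 1), (90, 583440, 2), (92, 71752, 1), (94, 66542, 1), (96, 201965, 2), 
   (98, 43700, 1), (100, 1000, 1), (102, 130140, 1), (104, 53312, 1), (106, 435822, 1), 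
   (108, 32818, 1), (110, 519330, 1), (112, 66750, 1), (114, 207630, 1), (116, 445203, 1), 
   (118, 51198, 1), (120, 1646160, 1), (122, 43528, 1), (124, 135368, 1), (126, 117677, 1), 
   (128, 778978, 1), (130, 84180, 1), (132, 293120, 1), (134, 107135, 1), (136, 67713, 1), 
   (138, 565210, 1), (140, 116695, 1), (142, 149093, 1), (144, 55432, 1), (146, 54602, 1), 
   (148, 181888, 1), (150, 3030, 2), (152, 315822, 1), (154, 1180802, 1), (156, 168102, 1), 
   (158, 838002, 1), (160, 441915, 1), (162, 1381328, 1), (164, 3531498, 1), (166, 562560, 1), 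
   (168, 98442, 1), (170, 3100753, 1), (172, 1399378, 1), (174, 2117058, 1), (176, 370898, 1), 
   (178, 123126, 1), (180, 3412395, 1), (182, 147412, 1), (184, 283168, 1), (186, 2982, 7), 
   (188, 97928, 1), (190, 382440, 1), (192, 99826, 1), (194, 4065, 9), (196, 785940, 1), 
   (198, 481728, 1), (200, 4488960, 1), (202, 2455500, 1), (204, 11483, 26), (206, 1486905, 1), 
   (208, 2419725, 1), (210, 10518, 22), (212, 387712, 1), (214, 121328, 1), (216, 724005, 1), 
   (218, 139688, 1), (220, 6666283, 1), (222, 137392, 1), (224, 582362, 1), (226, 33436, 3), 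
   (228, 5074, 10), (230, 235280, 1), (232, 206660, 3), (234, 42122, 6), (236, 149138, 1), 
   (238, 192777, 1), (240, 1603098, 1), (242, 151728, 1), (244, 626320, 1), (246, 397752, 1), 
   (248, 1042688, 1), (250, 184938, 1), (252, 520, 1), (254, 5251, 11), (256, 2962935, 1), 
   (258, 620739, 1), (260, 244377, 1), (262, 333968, 1), (264, 485622, 1), (266, 814462, 1), 
   (268, 1938768, 1), (270, 9228240, 1), (272, 417750, 1), (274, 350132, 1), (276, 217168, 1), 
   (278, 753858, 1), (280, 651552, 1), (282, 67770, 6), (284, 217808, 1), (286, 994992, 1), 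
   (288, 321330, 1), (290, 542003, 3), (292, 234448, 1), (294, 1616922, 1), (296, 1216423, 1), 
   (298, 385012, 1), (300, 1515776, 1), (302, 4276758, 1), (304, 485790, 1), (306, 9294417, 1), 
   (308, 5742300, 1), (310, 1486110, 1), (312, 1546125, 1), (314, 1931673, 1), (316, 6849232, 1), 
   (318, 741566, 1), (320, 1638165, 1), (322, 367062, 1), (324, 717552, 1), (326, 1901722, 1), 
   (328, 310882, 1), (330, 309160, 1), (332, 547652, 1), (334, 4669162, 1), (336, 22706160, 2), 
   (338, 838229, 1), (340, 7926, 4), (342, 336808, 1), (344, 580548, 1), (346, 654610, 1), 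
   (348, 6252090, 1), (350, 538640, 1), (352, 1723215, 1), (354, 14769378, 1), (356, 677815, 1), 
   (358, 499662, 1), (360, 354568, 1), (362, 597268, 1), (364, 13199274, 1), (366, 3748302, 1), 
   (368, 792550, 1), (370, 1076558, 1), (372, 363058, 1), (374, 380328, 1), (376, 6987547, 1), 
   (378, 32628852, 1), (380, 433090, 1), (382, 1894848, 1), (384, 17231562, 2), (386, 6371568, 1), 
   (388, 524562, 1), (390, 2561360, 1), (392, 870175, 1), (394, 1240862, 1), (396, 547257, 1), 
   (398, 425834, 1), (400, 874375, 1), (402, 632622, 1), (404, 8975718, 1), (406, 42965520, 1), 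
   (408, 496018, 1), (410, 668142, 1), (412, 641817, 1), (414, 1246133, 1), (416, 3769647, 1), 
   (418, 487338, 1), (420, 1758383, 2), (422, 1550752, 1), (424, 704553, 1), (426, 34142, 11), 
   (428, 4151928, 1), (430, 636390, 1), (432, 170462, 3), (434, 2252206, 1), (436, 3000405, 1), 
   (438, 567976, 1), (440, 546418, 1), (442, 745998, 1), (444, 20294022, 1), (446, 1704552, 1), 
   (448, 716769, 1), (450, 200532, 2), (452, 7726303, 1), (454, 50727, 5), (456, 3910032, 1), 
   (458, 1167850, 1), (460, 981120, 1), (462, 719793, 1), (464, 3202318, 1), (466, 645288, 1), 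
   (468, 1527768, 1), (470, 1890280, 1), (472, 4678100, 1), (474, 2321, 38), (476, 1804733, 1), 
   (478, 654778, 1), (480, 229146, 2), (482, 846342, 1), (484, 13073610, 1), (486, 59198000, 1), 
   (488, 6341946, 1), (490, 194466, 5), (492, 7178167, 1), (494, 21833747, 1), (496, 25002247, 1), 
   (498, 4049216, 1), (500, 989817, 1)]

def good (p : ℕ × ℕ × ℕ) : Bool :=
  decide ((elatedFun p.1)^[p.2.2] p.2.1 = p.2.1) && decide (0 < p.2.2) && decide (1 < p.2.1)

lemma table_good : table.all good = true := by decide +kernel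

lemma table_bases : ((List.range 249).all fun i => (table.map Prod.fst).contains (2 * i + 4))
    = true := by decide +kernel

lemma small_even {b : ℕ} (hb : 2 < b) (hb2 : b ≤ 500) (he : b % 2 = 0) :
    ∃ a : ℕ, 0 < a ∧ ¬ IsElated b a := by
  have h := table_bases
  rw [List.all_eq_true] at h
  have h1 := h ((b - 4) / 2) (List.mem_range.mpr (by omega))
  have e : 2 * ((b - 4) / 2) + 4 = b := by omega
  rw [e, List.contains_iff_mem, List.mem_map] at h1
  obtain ⟨p, hp, hpb⟩ := h1
  have h2 := (List.all_eq_true.mp table_good) p hp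
  unfold good at h2
  simp only [Bool.and_eq_true, decide_eq_true_eq] at h2
  obtain ⟨⟨h3, h4⟩, h5⟩ := h2
  rw [hpb] at h3
  exact ⟨p.2.1, by omega, not_elated_of_periodic (by omega) h4 h3 (by omega)⟩

theorem result :
    (∀ b : ℕ, 2 < b → Odd b → ∀ a : ℕ, Even a → ¬ IsElated b a) ∧
    (∀ b x t : ℕ, 0 < x → x < b → x * t < b → b + t = x ^ 2 * (1 + t ^ 2) →
      ¬ IsElated b (x * b + x * t)) ∧
    (∀ b : ℕ, 2 < b → (∀ a : ℕ, 0 < a → IsElated b a) →
      500 < b ∧ Even b ∧ ¬ IsSquare b) := by
  have h1 : ∀ b : ℕ, 2 < b → Odd b → ∀ a : ℕ, Even a → ¬ IsElated b a := by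
    intro b _ hodd a ha
    rintro ⟨k, hk⟩
    have := even_iterate (Nat.odd_iff.mp hodd) (Nat.even_iff.mp ha) k
    omega
  have h2 : ∀ b x t : ℕ, 0 < x → x < b → x * t < b → b + t = x ^ 2 * (1 + t ^ 2) →
      ¬ IsElated b (x * b + x * t) := by
    intro b x t hx0 hx hxt hb
    have h1b : 1 * b ≤ x * b := Nat.mul_le_mul_right b hx0
    exact not_elated_of_periodic (L := 1) (by omega) one_pos
      (two_digit_fixed hb hx hxt hx0) (by omega)
  refine ⟨h1, h2, ?_⟩
  intro b hb hall
  have heven : Even b := by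
    by_contra hne
    exact h1 b hb (Nat.not_even_iff_odd.mp hne) 2 (by decide) (hall 2 (by norm_num))
  refine ⟨?_, heven, ?_⟩
  · by_contra hcon
    obtain ⟨a, ha, hna⟩ := small_even hb (by omega) (Nat.even_iff.mp heven)
    exact hna (hall a ha)
  rintro ⟨r, hr⟩
  have hr1 : 1 < r := by
    by_contra hcon
    have : r ≤ 1 := by omega
    have : r * r ≤ 1 * 1 := Nat.mul_le_mul this this
    omega
  have hrb : r < b := by nlinarith
  refine h2 b r 0 (by omega) hrb (by simp; omega) (by rw [hr]; ring) (hall _ ?_)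
  have : 0 < r * b := Nat.mul_pos (by omega) (by omega)
  omega

end Pool.Agent.Results.MP_bebd57_nt.EvenNonsquareBases
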